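import Pool.Agent.H74.BTL.Targets

/-!
# Finite Littlewood exponent and the first L2-Betti number: the row PRB
-/

set_option autoImplicit false

open scoped ENNReal RealInnerProductSpace

universe u

namespace Pool.Agent.H80.BTL

open Pool.Agent.H74.BTL

theorem pr_mem {G : Type u} [Group G] {J : Type} (t : J → G) (N : Subgroup G)
    (h : ∀ j, t j ∈ N) (w : List J) : pr t w ∈ N := by
  induction w with
  | nil => rw [pr_nil]; exact N.one_mem
  | cons j w ih => rw [pr_cons]; exact N.mul_mem (h j) ih

theorem conj_pw {G : Type u} [Group G] (A X : G) (k : ℕ) : A⁻¹ * X ^ k * A = (A⁻¹ * X * A) ^ k := by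
  have h := conj_pow (i := k) (a := A⁻¹) (b := X)
  rw [inv_inv] at h
  exact h.symm

theorem conj_mem {G : Type u} [Group G] (K : Subgroup G) (A X : G)
    (hA : A ∈ Subgroup.normalizer (K : Set G)) (hX : A⁻¹ * X * A ∈ K) : X ∈ K := by
  have h := (Subgroup.mem_normalizer_iff.1 hA (A⁻¹ * X * A)).1 hX
  have h2 : A * (A⁻¹ * X * A) * A⁻¹ = X := by group
  rwa [h2] at h

/-- the sum over the values -/
theorem ind_sum {ι : Type*} (D : Finset ι) (p : Prop) (q : ι → Prop) (h : p → ∃ d ∈ D, q d) :
    ind p ≤ ∑ d ∈ D, ind (q d) := by
  by_cases hp : p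
  · obtain ⟨d, hd, hq⟩ := h hp
    rw [ind_true hp]
    have h1 := Finset.single_le_sum (f := fun d => ind (q d)) (fun d _ => ind_nonneg _) hd
    rw [← ind_true hq]
    exact h1
  · rw [ind_false hp]
    exact Finset.sum_nonneg fun d _ => ind_nonneg _

theorem main_est (h1 : T_COR.{u}) {G : Type u} [Group G] (K : Subgroup G) (J : Type) [Fintype J]
    [Nonempty J] (t : J → G) (r : ℝ) (m : ℕ) (hS : Sit G K J t r m) (D : Finset G)
    (X : G → G → G) (a q c k : ℕ) (f : List J → ℝ)
    (hf : ∀ A V C : List J, A.length = a → V.length = q → C.length = c →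
      f (A ++ (V ++ C)) ≤ ∑ d ∈ D, ind ((pr t V * pr t (C ++ A)) ^ k = X d (pr t V) ∧
        X d (pr t V) ∉ K)) :
    EE (a + (q + c)) f ≤ D.card * r ^ (c + a) := by
  have hV : ∀ V : List J, pr t V ∈ Subgroup.normalizer (K : Set G) := pr_mem t _ hS.mem
  rw [EE_append]
  have e1 : (EE a fun A : List J => EE (q + c) fun w => f (A ++ w)) =
      EE q fun V => EE c fun C => EE a fun A => f (A ++ (V ++ C)) := by
    have : ∀ A : List J, EE (q + c) (fun w => f (A ++ w)) =
        EE q fun V => EE c fun C => f (A ++ (V ++ C)) := by
      intro A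
      rw [EE_append]
    simp only [this]
    rw [EE_swap]
    congr 1
    funext V
    rw [EE_swap]
  rw [e1]
  have e2 : ∀ V : List J, V.length = q → (EE c fun C => EE a fun A => f (A ++ (V ++ C))) ≤
      D.card * r ^ (c + a) := by
    intro V hVl
    have e3 : (EE c fun C => EE a fun A => f (A ++ (V ++ C))) ≤ EE c fun C => EE a fun A =>
        ∑ d ∈ D, ind ((pr t V * pr t (C ++ A)) ^ k = X d (pr t V) ∧ X d (pr t V) ∉ K) :=
      EE_mono c fun C hC => EE_mono a fun A hA => hf A V C hA hVl hC
    refine e3.trans ?_
    have e4 : (EE c fun C => EE a fun A =>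
        ∑ d ∈ D, ind ((pr t V * pr t (C ++ A)) ^ k = X d (pr t V) ∧ X d (pr t V) ∉ K)) =
        ∑ d ∈ D, EE (c + a) fun y =>
          ind ((pr t V * pr t y) ^ k = X d (pr t V) ∧ X d (pr t V) ∉ K) := by
      rw [← EE_append c a (fun y => ∑ d ∈ D,
        ind ((pr t V * pr t y) ^ k = X d (pr t V) ∧ X d (pr t V) ∉ K))]
      rw [EE_sum]
    rw [e4]
    refine (Finset.sum_le_sum fun d _ => h1 G K J t r m hS (pr t V) (X d (pr t V)) k (c + a)
      (hV V)).trans (le_of_eq ?_)
    rw [Finset.sum_const, nsmul_eq_mul]
  refine (EE_mono q e2).trans (le_of_eq ?_)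
  exact EE_const q _

theorem pf_PRB (h1 : T_COR.{u}) : T_PRB.{u} := by
  intro G _ K J _ _ t r m hS D n i j k hi hj
  have hV : ∀ V : List J, pr t V ∈ Subgroup.normalizer (K : Set G) := pr_mem t _ hS.mem
  rcases le_or_gt i j with hij | hij
  · -- `i ≤ j`
    have hn : n = i + ((j - i) + (n - j)) := by omega
    have hr : n - (max i j - min i j) = (n - j) + i := by
      rw [max_eq_right hij, min_eq_left hij]
      omega
    rw [hr]
    have key := main_est h1 K J t r m hS D (fun d V => d * V⁻¹) i (j - i) (n - j) k
      (fun w : List J => ind ((pr t (w.take i))⁻¹ * pr t w ^ k * pr t (w.take j) ∈ D ∧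
        pr t w ^ k ∉ K)) (by
        intro A V C hA hVl hC
        have t1 : (A ++ (V ++ C)).take i = A := by
          rw [List.take_append_of_le_length (by omega), ← hA, List.take_length]
        have t2 : (A ++ (V ++ C)).take j = A ++ V := by
          rw [← List.append_assoc, List.take_append_of_le_length (by
            rw [List.length_append]; omega)]
          have : j = (A ++ V).length := by rw [List.length_append]; omega
          rw [this, List.take_length]
        refine ind_sum D _ _ ?_
        rw [t1, t2]
        rintro ⟨hD, hK⟩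
        have hA' := hV A
        refine ⟨_, hD, ?_, ?_⟩
        · simp only [pr_append]
          set a := pr t A
          set v := pr t V
          set c := pr t C
          have e1 : a⁻¹ * (a * (v * c)) ^ k * a = (v * (c * a)) ^ k := by
            rw [conj_pw]
            congr 1
            group
          calc (v * (c * a)) ^ k = a⁻¹ * (a * (v * c)) ^ k * a := e1.symm
            _ = a⁻¹ * (a * (v * c)) ^ k * (a * v) * v⁻¹ := by group
        · intro hmem
          apply hK
          apply conj_mem K (pr t A) _ hA'
          have e2 : (pr t A)⁻¹ * pr t (A ++ (V ++ C)) ^ k * pr t A =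
              (pr t A)⁻¹ * pr t (A ++ (V ++ C)) ^ k * pr t (A ++ V) * (pr t V)⁻¹ := by
            rw [pr_append t A V]
            group
          rw [e2]
          exact hmem)
    rw [← hn] at key
    exact key
  · -- `j < i`
    have hn : n = j + ((i - j) + (n - i)) := by omega
    have hr : n - (max i j - min i j) = (n - i) + j := by
      rw [max_eq_left hij.le, min_eq_right hij.le]
      omega
    rw [hr]
    have key := main_est h1 K J t r m hS D (fun d V => V * d) j (i - j) (n - i) k
      (fun w : List J => ind ((pr t (w.take i))⁻¹ * pr t w ^ k * pr t (w.take j) ∈ D ∧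
        pr t w ^ k ∉ K)) (by
        intro A V C hA hVl hC
        have t1 : (A ++ (V ++ C)).take j = A := by
          rw [List.take_append_of_le_length (by omega), ← hA, List.take_length]
        have t2 : (A ++ (V ++ C)).take i = A ++ V := by
          rw [← List.append_assoc, List.take_append_of_le_length (by
            rw [List.length_append]; omega)]
          have : i = (A ++ V).length := by rw [List.length_append]; omega
          rw [this, List.take_length]
        refine ind_sum D _ _ ?_
        rw [t1, t2]
        rintro ⟨hD, hK⟩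
        have hA' := hV A
        refine ⟨_, hD, ?_, ?_⟩
        · simp only [pr_append]
          set a := pr t A
          set v := pr t V
          set c := pr t C
          have e1 : a⁻¹ * (a * (v * c)) ^ k * a = (v * (c * a)) ^ k := by
            rw [conj_pw]
            congr 1
            group
          calc (v * (c * a)) ^ k = a⁻¹ * (a * (v * c)) ^ k * a := e1.symm
            _ = v * ((a * v)⁻¹ * (a * (v * c)) ^ k * a) := by group
        · intro hmem
          apply hK
          apply conj_mem K (pr t A) _ hA'
          have e2 : (pr t A)⁻¹ * pr t (A ++ (V ++ C)) ^ k * pr t A =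
              pr t V * ((pr t (A ++ V))⁻¹ * pr t (A ++ (V ++ C)) ^ k * pr t A) := by
            rw [pr_append t A V]
            group
          rw [e2]
          exact hmem)
    rw [← hn] at key
    exact key

end Pool.Agent.H80.BTL
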